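import Mathlib
import Pool.Agent.X255.RH.Main
import Pool.Agent.X39.Near.Ax

/-!
# Polynomial curves in the Lie algebra of a semi-abelian variety at all roots of almost all integral polynomials

Let `G` be the product of a torus `𝔾_m^s` and of elliptic curves `E_1, …, E_n`, and let `r(x) = (l_1(x), …, l_s(x), u_1(x), …, u_n(x))` be a
polynomial curve in the Lie algebra of `G`, which is not contained in a translate of the Lie algebra of an algebraic subgroup. For instance
`r(x) = x r` is a line. We consider the components of `exp_G(r(x))`, that is the numbers `exp(l_k(x))` and `℘(u_i(x))`, together with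
`ζ(u_i(x))`, at ALL the roots `x` of an integral polynomial of degree `g`; so `x` runs through algebraic numbers of degree `g` with all their
conjugates, and we look at a point of the `g`-th power of `Lie G`. The only roots which are omitted are those for which some `u_i(x)` is in the
lattice. The conjecture, applied to `G^g`, says that the transcendence degree is at least the dimension, `g (s + n)`, over the periods. The
number of our functions is even `s + 2 n`.

We prove: for almost all polynomials with coefficients at most `T` all these numbers (at all roots together) satisfy no algebraic relation over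
number fields whose degree and whose field degree is at most `ω(T)` and whose height is at most `T ^ ω(T)`, where `ω(T) → ∞`; the coefficients
of the relations may contain arbitrary given complex numbers `ξ_0, ξ_1, …`, for instance the monomials in the periods of `G` and in the
coefficients of `r`. The components of `r(x)` itself are polynomials in `x`.

The proof is an application of `Pool.Agent.X255.RH.main_all` (values of algebraically independent functions at the roots of almost all
polynomials) and `Pool.Agent.X39.Near.loc_fix` (Ax's theorem for the products of tori and universal vector extensions of elliptic curves).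
-/

set_option autoImplicit false

open Polynomial Filter Topology NumberField
open scoped PeriodPair

namespace Pool.Agent.Results.MP_4aec10_nt.AllRootsOfPolynomials

/-- The integral vectors `a = (a_0, …, a_g)` with `|a_i| ≤ T`. -/
noncomputable def box (g T : ℕ) : Finset (Fin (g + 1) → ℤ) := Fintype.piFinset fun _ => Finset.Icc (-(T : ℤ)) (T : ℤ)

/-- The polynomial `a_0 + a_1 x + … + a_g x^g`. -/
noncomputable def poly {g : ℕ} (a : Fin (g + 1) → ℤ) : ℂ[X] := ∑ i, C (a i : ℂ) * X ^ (i : ℕ)

/-- The Weierstrass `ζ`-function of the lattice `L` (the term of `l = 0` is `1 / z`). -/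
noncomputable def zeta (L : PeriodPair) (z : ℂ) : ℂ := ∑' l : L.lattice, (1 / (z - l) + 1 / l + z / l ^ 2)

/-- There is no homomorphism except `0` from the elliptic curve `ℂ / L` to `ℂ / L'`. -/
def NoHom (L L' : PeriodPair) : Prop := ∀ α : ℂ, (∀ w ∈ L.lattice, α * w ∈ L'.lattice) → α = 0

/-- The curve `(l, u)` in the Lie algebra of the product of `𝔾_m^s` and of the elliptic curves `E_i`, `i < n`, with the lattices `Λ_(ty i)`, is not
in a translate of the Lie algebra of an algebraic subgroup: no nontrivial integral combination of the `l_k` is constant, and for each type `c` no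
nontrivial combination of the `u_i` of this type is constant, whose coefficients multiply the lattice `Λ_c` into itself. -/
structure NotInTranslate {s n q : ℕ} (Λ : Fin q → PeriodPair) (ty : Fin n → Fin q) (l : Fin s → ℂ[X]) (u : Fin n → ℂ[X]) : Prop where
  torus : ∀ (m : Fin s → ℤ) (b : ℂ), ∑ k, C (m k : ℂ) * l k = C b → m = 0
  elliptic : ∀ (c : Fin q) (a : Fin n → ℂ) (b : ℂ), (∀ i, ∀ w ∈ (Λ c).lattice, a i * w ∈ (Λ c).lattice) →
    (∀ i, ty i ≠ c → a i = 0) → ∑ i, C (a i) * u i = C b → a = 0

/-- The points `z` such that no `u_i(z)` is in its lattice. -/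
def noPole {n q : ℕ} (Λ : Fin q → PeriodPair) (ty : Fin n → Fin q) (u : Fin n → ℂ[X]) : Set ℂ :=
  {z | ∀ i, (u i).eval z ∉ (Λ (ty i)).lattice}

/-- The roots of the polynomial with the coefficients `a` at which no `u_i` is in its lattice. -/
noncomputable def roots {g n q : ℕ} (Λ : Fin q → PeriodPair) (ty : Fin n → Fin q) (u : Fin n → ℂ[X]) (a : Fin (g + 1) → ℤ) :
    Finset ℂ := by
  classical exact (poly a).roots.toFinset.filter fun z => z ∈ noPole Λ ty u

/-- The functions `exp(l_k(z))`, `ζ(u_i(z))` and `℘(u_i(z))`. -/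
noncomputable def values {s n q : ℕ} (Λ : Fin q → PeriodPair) (ty : Fin n → Fin q) (l : Fin s → ℂ[X]) (u : Fin n → ℂ[X]) :
    Fin s ⊕ (Fin n ⊕ Fin n) → ℂ → ℂ :=
  Sum.elim (fun k z => Complex.exp ((l k).eval z))
    (Sum.elim (fun i z => zeta (Λ (ty i)) ((u i).eval z)) fun i z => ℘[Λ (ty i)] ((u i).eval z))

/-- The numbers `x q` satisfy no relation of degree at most `k` in each of them with coefficients `∑_{b < k} ξ_b c_b`, where the `c_b` are
integers of a number field of degree at most `k` all of whose conjugates are at most `T ^ k`, except the relations all of whose coefficients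
vanish. -/
def NoRelation {Q : Type} [Fintype Q] [DecidableEq Q] (ξ : ℕ → ℂ) (k : ℕ) (T : ℝ) (x : Q → ℂ) : Prop :=
  ∀ (F : Type) [Field F] [NumberField F], Module.finrank ℚ F ≤ k → ∀ (io : F →+* ℂ)
    (c : (Q → Fin (k + 1)) → Fin k → 𝓞 F), (∀ l b (φ : F →+* ℂ), ‖φ (c l b : F)‖ ≤ T ^ k) →
    ∑ l, (∑ b : Fin k, ξ b * io (c l b : F)) * ∏ q, x q ^ (l q : ℕ) = 0 → ∀ l, ∑ b : Fin k, ξ b * io (c l b : F) = 0

/-- The polynomial with the coefficients `a` has degree `g` and simple roots, and there is no relation between the `s + 2 n` numbers `exp(l_k(x))`,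
`ζ(u_i(x))`, `℘(u_i(x))` at all its roots `x` (where they are defined) together. -/
def Good {g s n q : ℕ} (Λ : Fin q → PeriodPair) (ty : Fin n → Fin q) (l : Fin s → ℂ[X]) (u : Fin n → ℂ[X]) (ξ : ℕ → ℂ) (k : ℕ)
    (T : ℝ) (a : Fin (g + 1) → ℤ) : Prop :=
  a (Fin.last g) ≠ 0 ∧ (poly a).Separable ∧
    NoRelation ξ k T fun q : {x // x ∈ roots Λ ty u a} × (Fin s ⊕ (Fin n ⊕ Fin n)) => values Λ ty l u q.2 q.1

section
variable {s n q : ℕ} {Λ : Fin q → PeriodPair} {ty : Fin n → Fin q} {l : Fin s → ℂ[X]} {u : Fin n → ℂ[X]}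

theorem isOpen_of_loc {S : Set ℂ} (hS : ∀ R : ℝ, (S ∩ Metric.closedBall 0 R).Finite) : IsOpen Sᶜ := by
  rw [isOpen_iff_mem_nhds]
  intro z hz
  have h1 : IsOpen (Metric.ball z 1 ∩ (S ∩ Metric.closedBall 0 (‖z‖ + 1))ᶜ) :=
    Metric.isOpen_ball.inter (hS _).isClosed.isOpen_compl
  refine Filter.mem_of_superset (h1.mem_nhds ⟨Metric.mem_ball_self one_pos, fun h => hz h.1⟩) ?_
  rintro w ⟨hw1, hw2⟩ hw3
  refine hw2 ⟨hw3, ?_⟩
  rw [mem_closedBall_zero_iff]
  have h2 : ‖w - z‖ < 1 := by rwa [Metric.mem_ball, dist_eq_norm] at hw1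
  have h3 : ‖w‖ ≤ ‖w - z‖ + ‖z‖ := by
    have := norm_add_le (w - z) z
    rwa [sub_add_cancel] at this
  linarith

theorem countable_of_loc {S : Set ℂ} (hS : ∀ R : ℝ, (S ∩ Metric.closedBall 0 R).Finite) : S.Countable := by
  have h1 : S = ⋃ n : ℕ, S ∩ Metric.closedBall 0 (n : ℝ) := by
    ext z
    simp only [Set.mem_iUnion, Set.mem_inter_iff, mem_closedBall_zero_iff]
    constructor
    · intro hz
      obtain ⟨n, hn⟩ := exists_nat_ge ‖z‖
      exact ⟨n, hz, hn⟩
    · rintro ⟨_, hz, _⟩
      exact hz
  rw [h1]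
  exact Set.countable_iUnion fun n => (hS n).countable

theorem not_const (h : NotInTranslate Λ ty l u) (i : Fin n) (b : ℂ) : u i ≠ C b := by
  classical
  intro hb
  have h1 := h.elliptic (ty i) (Pi.single i 1) b (fun j w hw => by
    by_cases hj : j = i
    · rw [hj, Pi.single_eq_same, one_mul]
      exact hw
    · rw [Pi.single_eq_of_ne hj, zero_mul]
      exact zero_mem _) (fun j hj => by
    rw [Pi.single_eq_of_ne]
    rintro rfl
    exact hj rfl) (by
    rw [Finset.sum_eq_single i]
    · rw [Pi.single_eq_same, C_1, one_mul, hb]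
    · intro j _ hj
      rw [Pi.single_eq_of_ne hj, C_0, zero_mul]
    · intro hj
      exact absurd (Finset.mem_univ i) hj)
  have h2 := congrFun h1 i
  rw [Pi.single_eq_same] at h2
  exact one_ne_zero h2

theorem poles_finite (h : NotInTranslate Λ ty l u) (R : ℝ) : ((noPole Λ ty u)ᶜ ∩ Metric.closedBall 0 R).Finite := by
  have hb : ∀ i, ∃ M : ℝ, ∀ z ∈ Metric.closedBall (0 : ℂ) R, ‖(u i).eval z‖ ≤ M := fun i =>
    (isCompact_closedBall (0 : ℂ) R).exists_bound_of_continuousOn (u i).continuous.continuousOn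
  choose M hM using hb
  have hfin : ∀ i, (Metric.closedBall (0 : ℂ) (M i) ∩ ((Λ (ty i)).lattice : Set ℂ)).Finite := fun i =>
    Metric.finite_isBounded_inter_isClosed ⟨inferInstanceAs (DiscreteTopology (Λ (ty i)).lattice)⟩ Metric.isBounded_closedBall
      (Λ (ty i)).isClosed_lattice
  have h1 : ((noPole Λ ty u)ᶜ ∩ Metric.closedBall 0 R) ⊆
      ⋃ i : Fin n, ⋃ w ∈ Metric.closedBall (0 : ℂ) (M i) ∩ ((Λ (ty i)).lattice : Set ℂ), {z : ℂ | (u i - C w).IsRoot z} := by
    rintro z ⟨hz1, hz2⟩
    have hz1' : ¬ ∀ i, (u i).eval z ∉ (Λ (ty i)).lattice := hz1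
    push Not at hz1'
    obtain ⟨i, hi⟩ := hz1'
    simp only [Set.mem_iUnion]
    refine ⟨i, (u i).eval z, ⟨?_, hi⟩, ?_⟩
    · rw [mem_closedBall_zero_iff]
      exact hM i z hz2
    · change (u i - C ((u i).eval z)).IsRoot z
      rw [IsRoot.def, eval_sub, eval_C, sub_self]
  refine Set.Finite.subset ?_ h1
  refine Set.finite_iUnion fun i => Set.Finite.biUnion (hfin i) fun w _ => ?_
  exact Polynomial.finite_setOfPred_isRoot (sub_ne_zero.2 (not_const h i w))

theorem conn (h : NotInTranslate Λ ty l u) : IsConnected (noPole Λ ty u) := by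
  have h1 := (countable_of_loc (poles_finite h)).isConnected_compl_of_one_lt_rank (by
    rw [Complex.rank_real_complex]
    norm_num)
  rwa [compl_compl] at h1

theorem isOpen_noPole (h : NotInTranslate Λ ty l u) : IsOpen (noPole Λ ty u) := by
  have h1 := isOpen_of_loc (poles_finite h)
  rwa [compl_compl] at h1

/-- a polynomial which is constant on the domain is constant -/
theorem eq_C (h : NotInTranslate Λ ty l u) {p : ℂ[X]} {b : ℂ} (hp : ∀ z ∈ noPole Λ ty u, p.eval z = b) : p = C b := by
  by_contra hne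
  obtain ⟨z0, hz0⟩ := (conn h).nonempty
  have h1 := Polynomial.finite_setOfPred_isRoot (sub_ne_zero.2 hne)
  refine infinite_of_mem_nhds z0 ?_ h1
  filter_upwards [(isOpen_noPole h).mem_nhds hz0] with z hz
  change (p - C b).IsRoot z
  rw [IsRoot.def, eval_sub, eval_C, hp z hz, sub_self]

theorem an_poly (p : ℂ[X]) (U : Set ℂ) : AnalyticOnNhd ℂ (fun z => p.eval z) U :=
  fun z _ => p.differentiable.analyticAt z

theorem curve (h : NotInTranslate Λ ty l u) (hΛ : ∀ c c', c ≠ c' → NoHom (Λ c) (Λ c')) :
    Pool.Agent.Y776.Cv.FxM (noPole Λ ty u) Λ ty (fun i z => (u i).eval z) (fun k z => (l k).eval z) where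
  isOpen := isOpen_noPole h
  conn := (conn h).isPreconnected
  ni := hΛ
  ua := fun i => an_poly (u i) _
  un := fun i _ hz => hz i
  ui := fun c a b ha hty hb => h.elliptic c a b ha hty (eq_C h fun z hz => by
    rw [eval_finsetSum]
    simp only [eval_mul, eval_C]
    exact hb z hz)
  la := fun k => an_poly (l k) _
  li := fun m b hb => h.torus m b (eq_C h fun z hz => by
    rw [eval_finsetSum]
    simp only [eval_mul, eval_C]
    exact hb z hz)

theorem an (h : NotInTranslate Λ ty l u) (hΛ : ∀ c c', c ≠ c' → NoHom (Λ c) (Λ c')) (k : Fin s ⊕ (Fin n ⊕ Fin n)) :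
    AnalyticOnNhd ℂ (values Λ ty l u k) (noPole Λ ty u) := by
  have hf := curve h hΛ
  rcases k with k | i | i
  · exact fun z hz => (hf.la k z hz).cexp
  · exact (hf.LF (ty i)).an_zeta (hf.ua i) (hf.un i)
  · exact (hf.LF (ty i)).an_wp (hf.ua i) (hf.un i)

/-- the coefficients of the polynomials -/
def coeffs (l : Fin s → ℂ[X]) (u : Fin n → ℂ[X]) : Set ℂ :=
  (Set.range fun p : Fin s × ℕ => (l p.1).coeff p.2) ∪ Set.range fun p : Fin n × ℕ => (u p.1).coeff p.2

theorem eval_mem {F : IntermediateField ℚ ℂ} {p : ℂ[X]} (hp : ∀ j, p.coeff j ∈ F) {S : Set ℂ} {z : ℂ} (hz : z ∈ S) :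
    p.eval z ∈ Pool.Agent.Y685.clo F S := by
  rw [eval_eq_sum_range]
  exact sum_mem fun j _ => mul_mem (Pool.Agent.Y685.base_clo (hp j)) (pow_mem (Pool.Agent.Y685.subset_clo hz) j)

theorem ind (h : NotInTranslate Λ ty l u) (hΛ : ∀ c c', c ≠ c' → NoHom (Λ c) (Λ c')) (hns : 0 < s + n) :
    Pool.Agent.X255.RH.Indep (noPole Λ ty u) (values Λ ty l u) := by
  classical
  obtain ⟨z0, hz0⟩ := (conn h).nonempty
  have h1 : Pool.Agent.Y124.LocInd (values Λ ty l u) z0 := by
    refine Pool.Agent.X39.Near.loc_fix (curve h hΛ) hns ⟨z0, hz0⟩ (an h hΛ) (by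
      simp only [Fintype.card_sum, Fintype.card_fin]
      ring) (G := coeffs l u) ((Set.countable_range _).union (Set.countable_range _)) (fun F hF z _ k => ?_) z0 hz0
    rcases k with k | k | i | i | i
    · exact eval_mem (fun j => hF (Or.inl ⟨(k, j), rfl⟩)) (Set.mem_insert _ _)
    · exact Pool.Agent.Y685.subset_clo (Or.inr ⟨Sum.inl k, rfl⟩)
    · exact eval_mem (fun j => hF (Or.inr ⟨(i, j), rfl⟩)) (Set.mem_insert _ _)
    · exact Pool.Agent.Y685.subset_clo (Or.inr ⟨Sum.inr (Sum.inl i), rfl⟩)
    · exact Pool.Agent.Y685.subset_clo (Or.inr ⟨Sum.inr (Sum.inr i), rfl⟩)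
  refine Pool.Agent.X255.RH.indep_of_aindepS fun P hP => h1 P ?_
  filter_upwards [(isOpen_noPole h).mem_nhds hz0] with t ht using hP t ht

end

open scoped Classical in
/-- **All roots of almost all polynomials.** Let `Λ_1, …, Λ_q` be lattices such that there are no homomorphisms between the elliptic curves of
different lattices. Let the complex polynomials `l_1, …, l_s` and `u_1, …, u_n` (with types `ty i` among `1, …, q`), `s + n ≥ 1`, form a curve in
the Lie algebra of the product of `𝔾_m^s` and of the `ℂ / Λ_(ty i)` which is not contained in a translate of the Lie algebra of an algebraic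
subgroup. For every degree `g ≥ 1` and all complex numbers `ξ_0, ξ_1, …` there is a function `ω(T) → ∞` such that among the `(2 T + 1)^(g + 1)`
integral polynomials with coefficients at most `T` at most the proportion `1 / ω(T)` is not good. -/
theorem result (g : ℕ) (hg : 0 < g) (s n q : ℕ) (hns : 0 < s + n) (Λ : Fin q → PeriodPair)
    (hΛ : ∀ c c', c ≠ c' → NoHom (Λ c) (Λ c')) (ty : Fin n → Fin q) (l : Fin s → ℂ[X]) (u : Fin n → ℂ[X])
    (h : NotInTranslate Λ ty l u) (ξ : ℕ → ℂ) :
    ∃ ω : ℕ → ℕ, Tendsto ω atTop atTop ∧ Monotone ω ∧ ∀ T : ℕ,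
      ω T * ((box g T).filter fun a => ¬ Good Λ ty l u ξ (ω T) T a).card ≤ (box g T).card :=
  Pool.Agent.X255.RH.main_all hg (conn h).isPreconnected (isOpen_noPole h) (fun _ => noPole Λ ty u)
    (fun _ => by
      have h1 := Pool.Agent.X255.RH.tame_of_discrete (poles_finite h)
      rwa [compl_compl] at h1) (an h hΛ) (ind h hΛ hns) ξ

end Pool.Agent.Results.MP_4aec10_nt.AllRootsOfPolynomials
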