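import Pool.Agent.N733.TG.M
import Pool.Agent.Results.MP_4aec10_nt.SemiabelianTranslates

/-!
# Translates of every point of the Lie algebra of `(E × G_m)^n` by logarithms of the values of multiplicative functions

Let `F_1, …, F_n` be positive multiplicative functions of at most polynomial growth such that `F_i p ≤ M p` for the large
primes `p`, with different values at different large primes; for example Euler's function or the sum of the divisors.

Let `E` be the elliptic curve `y² = 4 x³ - g₂ x - g₃` with rational `g₂`, `g₃`, and `G = (E × G_m)^n`. Let `r₀ = (z, s)` be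
ANY point of `Lie G_ℂ = ℂⁿ × ℂⁿ`, and translate it by the logarithms of the points `P = ((α_i, β_i), α_i)_i` of `G` with
`α_i = ± F_i(m_i)` (any signs). For all tuples `m ∈ [1, N]^n` but `N^n / (log N)^U`, and for all signs and all values of the
logarithms, every polynomial relation of bounded degree, over number fields of bounded degree and of any height, between
arbitrary constants `w_1, …, w_q` (for instance the periods of `G`), the components `u_i`, `t_i` of the translate `r`, the
numbers `ζ(u_i)`, and the components of `exp_G(r)` is an identity in the numbers `u_i`, `ζ(u_i)`, `t_i`. In bounded degree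
the transcendence degree of the components of `r` and `exp_G(r)` over the field of periods is thus at least `dim G`.
How large `N` has to be does not depend on `r₀` and `w`.

The starting theorem `SemiabelianTranslates` of this problem says that only a proportion `C T^(-c)` of the tuples of
integers `α` with `|α_i| ≤ T` are exceptional. The tuples `(F_1(m_1), …, F_n(m_n))` form a thin set and are taken with very
large multiplicities, and so this says nothing about them: one exceptional tuple could be the value at a positive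
proportion of the `m`, if the multiplicities were not controlled. This is the tool `Pool.Agent.N733.TG.keep_tuples2` of
helper733.
-/

set_option autoImplicit false

open scoped PeriodPair

namespace Pool.Agent.Results.MP_4aec10_nt.MultiplicativeValues

open Pool.Agent.N733.TG (LM lm_totient lm_sigma keep_tuples2)
open Pool.Agent.Results.MP_4aec10_nt.SemiabelianTranslates (integers IsTranslate FreeOverImage)

/-- the algebraic integers of degree one are the integers -/
lemma mem_integers_one {T : ℕ} {α : ℂ} (h : α ∈ integers 1 T) : ∃ t : ℤ, -(T : ℤ) ≤ t ∧ t ≤ T ∧ α = t := by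
  obtain ⟨h1, h2, h3⟩ := h
  have h4 : IsIntegral ℚ α := h1.tower_top
  have h5 : (minpoly ℚ α).natDegree = 1 := le_antisymm h2 (minpoly.natDegree_pos h4)
  have h6 : α ∈ (algebraMap ℚ ℂ).range := by
    rw [← minpoly.natDegree_eq_one_iff]
    exact h5
  obtain ⟨r, hr⟩ := h6
  have h7 : IsIntegral ℤ r := by
    rw [← hr] at h1
    exact (isIntegral_algebraMap_iff (algebraMap ℚ ℂ).injective).1 h1
  obtain ⟨t, ht⟩ := IsIntegrallyClosed.isIntegral_iff.1 h7
  have h8 : α = t := by
    rw [← hr, ← ht]
    simp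
  have h9 := h3 α (minpoly.aeval ℚ α)
  rw [h8, Complex.norm_intCast] at h9
  have h10 : |t| ≤ (T : ℤ) := by exact_mod_cast h9
  exact ⟨t, (abs_le.1 h10).1, (abs_le.1 h10).2, h8⟩

lemma integers_one {T : ℕ} {t : ℤ} (h : |t| ≤ (T : ℤ)) : (t : ℂ) ∈ integers 1 T := by
  have h0 : minpoly ℚ (t : ℂ) = Polynomial.X - Polynomial.C (t : ℚ) := by
    have := minpoly.eq_X_sub_C (A := ℚ) (B := ℂ) (t : ℚ)
    simpa using this
  refine ⟨isIntegral_algebraMap (R := ℤ) (A := ℂ) (x := t), ?_, ?_⟩
  · rw [h0, Polynomial.natDegree_X_sub_C]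
  · intro z hz
    rw [h0] at hz
    simp only [map_sub, Polynomial.aeval_X, Polynomial.aeval_C, sub_eq_zero] at hz
    rw [hz]
    simp only [eq_ratCast, Rat.cast_intCast, Complex.norm_intCast]
    exact_mod_cast h

lemma card_integers (T : ℕ) (hT : 1 ≤ T) : ((integers 1 T).ncard : ℝ) ≤ 3 * T := by
  classical
  have h1 : integers 1 T ⊆ ((Finset.Icc (-(T : ℤ)) T).image (fun t : ℤ => (t : ℂ)) : Finset ℂ) := by
    intro α hα
    obtain ⟨t, h1, h2, rfl⟩ := mem_integers_one hα
    rw [Finset.coe_image]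
    exact ⟨t, by simp [h1, h2], rfl⟩
  have h2 := Set.ncard_le_ncard h1 (Finset.finite_toSet _)
  rw [Set.ncard_coe_finset] at h2
  have h3 := h2.trans Finset.card_image_le
  rw [Int.card_Icc] at h3
  have h4 : ((T : ℤ) + 1 - -(T : ℤ)).toNat = 2 * T + 1 := by omega
  rw [h4] at h3
  have h5 : ((integers 1 T).ncard : ℝ) ≤ 2 * T + 1 := by exact_mod_cast h3
  have h6 : (1 : ℝ) ≤ T := by exact_mod_cast hT
  linarith

/-- **Translates of every point of `Lie (E × G_m)^n` by logarithms of the values of multiplicative functions.** Let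
`F_1, …, F_n` be multiplicative and positive, of at most polynomial growth, with `F_i p ≤ M p` at the large primes, and
injective there; let `Λ` be a lattice with rational invariants. For all `q`, `δ`, `d`, `U`, all large `N`, all
`z`, `s` in `ℂⁿ` and `w` in `ℂ^q`: for all `m ∈ [1, N]^n` but `N^n / (log N)^U` and ALL signs, all translates of `(z, s)` by
logarithms of the points `((α_i, β_i), α_i)`, `α_i = ± F_i(m_i)`, are free over their image and `w`. Euler's function and
the sum of the divisors are examples of such functions. -/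
theorem result :
    (∀ (Λ : PeriodPair) (a b : ℚ), Λ.g₂ = a → Λ.g₃ = b → ∀ (n : ℕ) (F : Fin n → ℕ → ℕ), 1 ≤ n → (∀ i, LM (F i)) →
      ∀ q δ d U : ℕ, ∃ N₀ : ℕ, ∀ N : ℕ, N₀ ≤ N → ∀ (w : Fin q → ℂ) (z s : Fin n → ℂ),
      ({m : Fin n → ℕ | (∀ i, 1 ≤ m i ∧ m i ≤ N) ∧
        ¬ ∀ α : Fin n → ℤ, (∀ i, |α i| = F i (m i)) → ∀ u t : Fin n → ℂ,
          IsTranslate Λ z s (fun i => (α i : ℂ)) u t → FreeOverImage Λ δ d w u t}.ncard : ℝ) ≤
        (N : ℝ) ^ n / Real.log N ^ U) ∧
    (LM Nat.totient ∧ LM (fun m => ∑ d ∈ m.divisors, d)) := by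
  classical
  refine ⟨fun Λ a b ha hb k F hk hF q δ d U => ?_, lm_totient, lm_sigma⟩
  obtain ⟨c, hc, C, hcount⟩ :=
    Pool.Agent.Results.MP_4aec10_nt.SemiabelianTranslates.result Λ a b ha hb k q 1 le_rfl δ d
  obtain ⟨N₀, hN₀⟩ := keep_tuples2 hk hF hc U (|C| * 3 ^ k)
  refine ⟨N₀, fun N hN w z s => ?_⟩
  obtain ⟨Bad, hBad⟩ : ∃ Bad : (Fin k → ℤ) → Prop, Bad = fun α => ¬ ∀ u t : Fin k → ℂ,
      IsTranslate Λ z s (fun i => (α i : ℂ)) u t → FreeOverImage Λ δ d w u t := ⟨_, rfl⟩
  refine le_trans ?_ (hN₀ N hN {v : Fin k → ℕ | ∃ α : Fin k → ℤ, (∀ i, |α i| = v i) ∧ Bad α} fun X hX => ?_)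
  · have hfin : {m : Fin k → ℕ | (∀ i, 1 ≤ m i ∧ m i ≤ N) ∧ ¬ ((∀ i, 2 ≤ F i (m i)) ∧ (fun i => F i (m i)) ∉
        {v : Fin k → ℕ | ∃ α : Fin k → ℤ, (∀ i, |α i| = v i) ∧ Bad α})}.Finite := by
      apply (Set.Finite.pi' fun _ : Fin k => Set.finite_Icc 1 N).subset
      intro m hm i
      exact hm.1 i
    refine Nat.cast_le.2 (Set.ncard_le_ncard ?_ hfin)
    rintro m ⟨h3, h4⟩
    refine ⟨h3, ?_⟩
    rintro ⟨-, h5⟩
    apply h4
    intro α hα
    by_contra hE
    exact h5 ⟨α, hα, by rw [hBad]; exact hE⟩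
  · -- the exceptional tuples of natural numbers
    have hX1 : (1 : ℝ) ≤ X := by exact_mod_cast hX
    have hX0 : (0 : ℝ) < X := by linarith
    obtain ⟨hI, h1⟩ := hcount w z s X hX
    choose! g hg1 hg2 using fun (v : Fin k → ℕ) (hv : v ∈
      {v : Fin k → ℕ | ∃ α : Fin k → ℤ, (∀ i, |α i| = v i) ∧ Bad α}) => hv
    have hfinα : {α : Fin k → ℂ | (∀ i, α i ∈ integers 1 X) ∧
        ¬ ∀ u t : Fin k → ℂ, IsTranslate Λ z s α u t → FreeOverImage Λ δ d w u t}.Finite := by
      apply (Set.Finite.pi' fun _ : Fin k => hI).subset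
      intro α hα i
      exact hα.1 i
    have h2 : {v : Fin k → ℕ | (∀ i, 2 ≤ v i ∧ v i ≤ X) ∧ v ∈
        {v : Fin k → ℕ | ∃ α : Fin k → ℤ, (∀ i, |α i| = v i) ∧ Bad α}}.ncard ≤
        {α : Fin k → ℂ | (∀ i, α i ∈ integers 1 X) ∧
        ¬ ∀ u t : Fin k → ℂ, IsTranslate Λ z s α u t → FreeOverImage Λ δ d w u t}.ncard := by
      refine Set.ncard_le_ncard_of_injOn (fun v i => ((g v i : ℤ) : ℂ)) ?_ ?_ hfinα
      · rintro v ⟨hv1, hv2⟩
        refine ⟨fun i => integers_one ?_, ?_⟩
        · rw [hg1 v hv2 i]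
          exact_mod_cast (hv1 i).2
        · have := hg2 v hv2
          rw [hBad] at this
          exact this
      · intro v hv v' hv' h
        funext i
        have h3 : g v i = g v' i := by
          have h0 : ((g v i : ℤ) : ℂ) = ((g v' i : ℤ) : ℂ) := congr_fun h i
          exact_mod_cast h0
        have h4 := hg1 v hv.2 i
        have h5 := hg1 v' hv'.2 i
        rw [h3, h5] at h4
        exact_mod_cast h4.symm
    have h3 : (((integers 1 X).ncard : ℝ)) ^ k ≤ (3 * X) ^ k := by
      gcongr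
      exact card_integers X hX
    calc _ ≤ (({α : Fin k → ℂ | (∀ i, α i ∈ integers 1 X) ∧
        ¬ ∀ u t : Fin k → ℂ, IsTranslate Λ z s α u t → FreeOverImage Λ δ d w u t}.ncard : ℕ) : ℝ) := by
          exact_mod_cast h2
      _ ≤ C * (X : ℝ) ^ (-c) * ((integers 1 X).ncard : ℝ) ^ k := h1
      _ ≤ |C| * (X : ℝ) ^ (-c) * (3 * X) ^ k := by
          have := le_abs_self C
          gcongr
      _ = |C| * 3 ^ k * ((X : ℝ) ^ (k : ℝ) * (X : ℝ) ^ (-c)) := by
          rw [Real.rpow_natCast]
          ring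
      _ = |C| * 3 ^ k * (X : ℝ) ^ ((k : ℝ) - c) := by
          rw [← Real.rpow_add hX0, sub_eq_add_neg]

end Pool.Agent.Results.MP_4aec10_nt.MultiplicativeValues
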