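import Pool.Agent.N671.DA.Tup
import Pool.Agent.Results.MP_4aec10_nt.MultiplicativeValues

/-!
# Translates in `Lie (E × G_m)^n` by logarithms of the best approximation vectors of systems of linear forms

Let `E` be the elliptic curve `y² = 4 x³ - g₂ x - g₃` with rational `g₂`, `g₃`, and `G = (E × G_m)^n`. Let `r₀ = (z, s)` be
ANY point of `Lie G_ℂ = ℂⁿ × ℂⁿ`. Let `A` be a real matrix with `n` rows and `m` columns, `β` in `ℝ^m` and `τ > 0`. We
consider the integer vectors `v = (v_1, …, v_n)` with `‖(v A)_j - β_j‖ ≤ κ |v| ^ (-τ)` for `j = 1, …, m`, `‖x‖` the distance to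
the nearest integer and `|v|` the maximum norm; for `β = 0`, `κ = 1` and `τ = n / m` they include all best approximation
vectors of the system of the linear forms `v A`, by the theorem of Minkowski. We show that for all `A` outside a set of
Hausdorff dimension at most `(n - 1) m + (m + n - c) / (1 + τ)`, less than `n m` for `τ = n / m`, and so for almost all `A`,
the following is true for all large `v` of this kind and all translates `r = (u, t)` of `r₀` by logarithms of the points
`((v_i, ± y_i), v_i)_i` of `G`: every polynomial relation of bounded degree, over number fields of bounded degree and of any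
height, between arbitrary constants `w_1, …, w_q` (for instance the periods of `G`), the components `u_i`, `t_i` of `r`, the
numbers `ζ(u_i)`, and the components of `exp_G(r)` is an identity in the numbers `u_i`, `ζ(u_i)`, `t_i`. In bounded degree the
transcendence degree of the components of `r` and `exp_G(r)` over the field of periods is thus at least `dim G`. The positive
number `c` depends only on the curve, `n`, `q` and the degrees.

The best approximation vectors are a very sparse sequence, about `log T` vectors of norm at most `T`, and so this does not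
follow from the size of the exceptional set, which is only smaller than `T^n` by a factor `T^c` with a small positive `c`.

Proof. The starting theorem `SemiabelianTranslates` of this problem bounds the number of the exceptional vectors by
`C T^(n - c)`. The matrices `A` with `‖(v A)_j - β_j‖ ≤ κ |v| ^ (-τ)` form neighbourhoods of parallel affine subspaces,
covered by cubes of side `|v| ^ (-1 - τ)` (`Pool.Agent.N671.DA`).
-/

set_option autoImplicit false

open scoped PeriodPair

namespace Pool.Agent.Results.MP_4aec10_nt.BestApproximations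

open Pool.Agent.N671.DA (Near thin_of_nat approx_vectors)
open Pool.Agent.Results.MP_4aec10_nt.SemiabelianTranslates (integers IsTranslate FreeOverImage)
open Pool.Agent.Results.MP_4aec10_nt.MultiplicativeValues (integers_one card_integers)

/-- **The Schanuel bound for `(E × G_m)^n` at the best approximation vectors.** Let `Λ` be a lattice with rational
invariants, `n ≥ 1`. For all `q`, `δ`, `d` there is `c > 0` such that for all `w` in `ℂ^q`, all points `(z, s)` of `ℂⁿ × ℂⁿ`,
all `β ∈ ℝ^m` and `τ > 0`, for all real matrices `A` with `n` rows and `m` columns outside a set of Hausdorff dimension at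
most `(n - 1) m + (m + n - c) / (1 + τ)` and all `κ`, for all large integer vectors `v` with `‖(v A)_j - β_j‖ ≤ κ |v| ^ (-τ)`
for all `j`, all translates of `(z, s)` by logarithms of the points `((v_i, y_i), v_i)` are free over their image and `w`, for
relations of degree at most `δ` over number fields of degree at most `d`. -/
theorem result (Λ : PeriodPair) (a b : ℚ) (ha : Λ.g₂ = a) (hb : Λ.g₃ = b) (n q : ℕ) (hn : 1 ≤ n) (δ d : ℕ) :
    ∃ c : ℝ, 0 < c ∧ ∀ (w : Fin q → ℂ) (z s : Fin n → ℂ) (m : ℕ) (β : Fin m → ℝ) (τ : ℝ), 0 < τ →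
      ∃ E : Set (Fin n × Fin m → ℝ),
        dimH E ≤ ENNReal.ofReal (((n : ℝ) - 1) * m + (m + ((n : ℝ) - c)) / (1 + τ)) ∧
        ∀ A, A ∉ E → ∀ κ : ℝ, ∃ Q : ℝ, ∀ v : Fin n → ℤ, Q ≤ ‖v‖ → Near A β v (κ * ‖v‖ ^ (-τ)) →
          ∀ u t : Fin n → ℂ, IsTranslate Λ z s (fun i => (v i : ℂ)) u t → FreeOverImage Λ δ d w u t := by
  obtain ⟨c₀, hc₀, C, h⟩ := SemiabelianTranslates.result Λ a b ha hb n q 1 le_rfl δ d
  obtain ⟨c, hc⟩ : ∃ c : ℝ, c = min c₀ 1 := ⟨_, rfl⟩
  have hc0 : 0 < c := by
    rw [hc]
    exact lt_min hc₀ one_pos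
  have hc1 : c ≤ 1 := by
    rw [hc]
    exact min_le_right _ _
  have hcc : c ≤ c₀ := by
    rw [hc]
    exact min_le_left _ _
  have hn1 : (1 : ℝ) ≤ n := by exact_mod_cast hn
  refine ⟨c, hc0, fun w z s m β τ hτ => ?_⟩
  obtain ⟨W, hW⟩ : ∃ W : Set (Fin n → ℤ), W = {v | ¬ ∀ u t : Fin n → ℂ,
    IsTranslate Λ z s (fun i => (v i : ℂ)) u t → FreeOverImage Λ δ d w u t} := ⟨_, rfl⟩
  have hT : Pool.Agent.N671.DA.Thin W ((n : ℝ) - c) := by
    refine thin_of_nat (C₀ := |C| * 3 ^ n) (by linarith) fun X hX => ?_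
    obtain ⟨hf, hle⟩ := h w z s X hX
    have hX1 : (1 : ℝ) ≤ X := by exact_mod_cast hX
    have hX0 : (0 : ℝ) < X := by linarith
    have hsub : (fun (v : Fin n → ℤ) (i : Fin n) => (v i : ℂ)) '' {v : Fin n → ℤ | (∀ i, |v i| ≤ (X : ℤ)) ∧ v ∈ W} ⊆
        {α : Fin n → ℂ | (∀ i, α i ∈ integers 1 X) ∧
          ¬ ∀ u t : Fin n → ℂ, IsTranslate Λ z s α u t → FreeOverImage Λ δ d w u t} := by
      rintro _ ⟨v, ⟨hv1, hv2⟩, rfl⟩
      rw [hW] at hv2
      exact ⟨fun i => integers_one (hv1 i), hv2⟩
    have hinj : Function.Injective (fun (v : Fin n → ℤ) (i : Fin n) => (v i : ℂ)) := by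
      intro u v huv
      funext i
      exact Int.cast_injective (congrFun huv i)
    have hfin : {α : Fin n → ℂ | (∀ i, α i ∈ integers 1 X) ∧
          ¬ ∀ u t : Fin n → ℂ, IsTranslate Λ z s α u t → FreeOverImage Λ δ d w u t}.Finite := by
      apply (Set.Finite.pi' fun _ : Fin n => hf).subset
      rintro α ⟨h1, _⟩
      exact h1
    have h2 := Set.ncard_le_ncard hsub hfin
    rw [Set.ncard_image_of_injective _ hinj] at h2
    have h3 : ((integers 1 X).ncard : ℝ) ^ n ≤ (3 * (X : ℝ)) ^ n :=
      pow_le_pow_left₀ (Nat.cast_nonneg _) (card_integers X hX) n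
    have h4 : (X : ℝ) ^ (-c₀) ≤ (X : ℝ) ^ (-c) := Real.rpow_le_rpow_of_exponent_le hX1 (by linarith)
    have h5 : 0 ≤ (X : ℝ) ^ (-c₀) := Real.rpow_nonneg hX0.le _
    calc _ ≤ (({α : Fin n → ℂ | (∀ i, α i ∈ integers 1 X) ∧
          ¬ ∀ u t : Fin n → ℂ, IsTranslate Λ z s α u t → FreeOverImage Λ δ d w u t}.ncard : ℕ) : ℝ) := by
            exact_mod_cast h2
      _ ≤ C * (X : ℝ) ^ (-c₀) * ((integers 1 X).ncard : ℝ) ^ n := hle
      _ ≤ |C| * (X : ℝ) ^ (-c) * (3 * (X : ℝ)) ^ n := by
          have h6 : C * (X : ℝ) ^ (-c₀) ≤ |C| * (X : ℝ) ^ (-c) :=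
            (mul_le_mul_of_nonneg_right (le_abs_self C) h5).trans
              (mul_le_mul_of_nonneg_left h4 (abs_nonneg C))
          exact mul_le_mul h6 h3 (by positivity) (by positivity)
      _ = |C| * 3 ^ n * (X : ℝ) ^ ((n : ℝ) - c) := by
          rw [mul_pow, sub_eq_add_neg (n : ℝ), Real.rpow_add hX0, Real.rpow_natCast]
          ring
  obtain ⟨E, hE, hE2⟩ := approx_vectors hn W (s := (n : ℝ) - c) (by linarith) hT β hτ
  refine ⟨E, hE, fun A hA κ => ?_⟩
  obtain ⟨Q, hQ⟩ := hE2 A hA κ
  refine ⟨Q, fun v hv h1 => ?_⟩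
  have h2 := hQ v hv h1
  rw [hW] at h2
  simpa only [Set.mem_ofPred_eq, not_not] using h2

end Pool.Agent.Results.MP_4aec10_nt.BestApproximations
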