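import Pool.Agent.N207.AX.Few
import Pool.Agent.N207.AX.Exp
import Pool.Agent.N207.AX.Ell
import Pool.Agent.N301.AX.IND
import Pool.Agent.N945.AX.ELL
import Pool.Agent.N878.AX.LINE

/-!
# The semi-abelian Schanuel conjecture at almost all algebraic points of arbitrary analytic families, split case

Let `G = G_m^s × E_1 × ⋯ × E_n` be a product of the multiplicative group and of elliptic curves `E_i = ℂ / Ω_ty(i)`; the
lattices `Ω_1, …, Ω_q` have pairwise no homomorphisms, and several `E_i` can have the same lattice. Let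
`r(z) = (t_1(z), …, t_s(z), p_1(z), …, p_n(z))` be an analytic family of elements of `Lie G`, over a connected open set `U`
of `ℂ ^ X` (`X` any finite set), such that `r` is not in a translate of the Lie algebra of a proper algebraic subgroup.
There is no other condition. The weak relative semi-abelian conjecture says that in general, for points `r = r(z)` which
are not special, the transcendence degree of the field generated by the components of `r` and of `exp_G(r)` over the
field of the periods is at least `dim G = s + n`. We show that `s + n` fixed ones among the numbers `t_l`, `exp(t_l)`,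
`p_i`, `℘(p_i)`, together with `n` further ones among them and the numbers `ζ(p_i)` (extension by the quasi-logarithms),
do not satisfy any relation of growing degree and height, with coefficients relative to arbitrary complex constants (for
instance the monomials in the periods and quasi-periods), for almost all points over all number fields of growing degree.
-/

set_option autoImplicit false

open Filter NumberField
open scoped PeriodPair

namespace Pool.Agent.Results.MP_4aec10_nt.SplitFamilies

/-- The Weierstrass zeta function `ζ(z) = ∑ (1/(z-l) + 1/l + z/l²)`, the sum over the lattice (the summand of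
`l = 0` is `1/z`, since `1/0 = 0` in Lean). -/
noncomputable def ζ (L : PeriodPair) (z : ℂ) : ℂ :=
  ∑' l : L.lattice, (1 / (z - l) + 1 / l + z / l ^ 2)

/-- Analytic functions `t_1, …, t_s` and `p_1, …, p_n` of several variables, the `p_i` with values outside one of the
lattices `Ω c`, its type; the lattices `Ω c` have pairwise no homomorphisms. No nontrivial combination with integral
coefficients of the `t_l`, and for each `c` no nontrivial combination of the `p_i` of type `c` with coefficients in the
ring of the endomorphisms of `ℂ / Ω c`, is constant. -/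
structure Family {X : Type} [Fintype X] {q s n : ℕ} (U : Set (X → ℂ)) (Ω : Fin q → PeriodPair) (ty : Fin n → Fin q)
    (t : Fin s → (X → ℂ) → ℂ) (p : Fin n → (X → ℂ) → ℂ) : Prop where
  isOpen : IsOpen U
  isPreconnected : IsPreconnected U
  nonempty : U.Nonempty
  noHom : ∀ c c', c ≠ c' → ∀ α : ℂ, (∀ w ∈ (Ω c).lattice, α * w ∈ (Ω c').lattice) → α = 0
  analytic_t : ∀ l, AnalyticOnNhd ℂ (t l) U
  analytic_p : ∀ i, AnalyticOnNhd ℂ (p i) U
  notMem : ∀ i, ∀ z ∈ U, p i z ∉ (Ω (ty i)).lattice
  independent_t : ∀ (m : Fin s → ℤ) (b : ℂ), (∀ z ∈ U, ∑ l, (m l : ℂ) * t l z = b) → m = 0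
  independent_p : ∀ (c : Fin q) (u : Fin n → ℂ) (b : ℂ), (∀ i, ∀ w ∈ (Ω c).lattice, u i * w ∈ (Ω c).lattice) →
    (∀ i, ty i ≠ c → u i = 0) → (∀ z ∈ U, ∑ i, u i * p i z = b) → u = 0

/-- The names of the functions `t_l`, `exp(t_l)`, `p_i`, `℘(p_i)`, `ζ(p_i)`. -/
inductive Name (s n : ℕ) : Type
  | t : Fin s → Name s n
  | expt : Fin s → Name s n
  | p : Fin n → Name s n
  | wp : Fin n → Name s n
  | zeta : Fin n → Name s n

/-- The values of the functions `t_l`, `exp(t_l)`, `p_i`, `℘(p_i)`, `ζ(p_i)` at the point `z`, with the functions `℘`, `ζ`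
of the lattice `Ω (ty i)`. -/
noncomputable def value {X : Type} {q s n : ℕ} (Ω : Fin q → PeriodPair) (ty : Fin n → Fin q)
    (t : Fin s → (X → ℂ) → ℂ) (p : Fin n → (X → ℂ) → ℂ) (z : X → ℂ) : Name s n → ℂ
  | Name.t l => t l z
  | Name.expt l => Complex.exp (t l z)
  | Name.p i => p i z
  | Name.wp i => ℘[Ω (ty i)] (p i z)
  | Name.zeta i => ζ (Ω (ty i)) (p i z)

/-- `x` is a quotient of two integers of `K` all of whose conjugates are at most `T` in absolute value -/
def Height (K : Type) [Field K] [NumberField K] (T : ℝ) (x : K) : Prop :=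
  ∃ a b : 𝓞 K, b ≠ 0 ∧ house (a : K) ≤ T ∧ house (b : K) ≤ T ∧ x = a / b

/-- the points of norm at most `k` at distance at least `1 / k` from the complement of `U` -/
def Inner {X : Type} [Fintype X] (U : Set (X → ℂ)) (k : ℕ) : Set (X → ℂ) := {z | ‖z‖ ≤ k ∧ Metric.ball z (k : ℝ)⁻¹ ⊆ U}

/-- `S` is covered by `m` hypersurfaces of degree at most `D` -/
def Covered {X : Type} (D m : ℕ) (S : Set (X → ℂ)) : Prop :=
  ∃ Φ : Finset (MvPolynomial X ℂ), Φ.card ≤ m ∧ (∀ R ∈ Φ, R ≠ 0 ∧ R.totalDegree ≤ D) ∧
    ∀ x ∈ S, ∃ R ∈ Φ, MvPolynomial.eval x R = 0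

/-- **The exceptional points**: `s` in `K ^ X`, of height at most `T`, in the compact set `Inner U k`, such that some
nonzero polynomial `R` of partial degrees at most `k`, whose coefficients are combinations `∑ ξ i * c i` with integers
`c i` of `K` all of whose conjugates are at most `T ^ k`, vanishes at the numbers `v s y` -/
def Exceptional {X σ : Type} [Fintype X] (U : Set (X → ℂ)) (v : (X → ℂ) → σ → ℂ) (K : Type) [Field K] [NumberField K]
    (io : K →+* ℂ) (k : ℕ) (ξ : Fin k → ℂ) (T : ℝ) : Set (X → K) :=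
  {s | (∀ j, Height K T (s j)) ∧ (fun j => io (s j)) ∈ Inner U k ∧
    ∃ R : MvPolynomial σ ℂ, R ≠ 0 ∧ (∀ y, R.degreeOf y ≤ k) ∧
    (∀ m, ∃ c : Fin k → 𝓞 K, (∀ i (φ : K →+* ℂ), ‖φ (c i : K)‖ ≤ T ^ (k : ℝ)) ∧
      R.coeff m = ∑ i, ξ i * io (c i : K)) ∧
    MvPolynomial.eval (v fun j => io (s j)) R = 0}

theorem exists_split {N : Type} [Fintype N] [DecidableEq N] {a b : ℕ} (hN : Fintype.card N = a + b) (S : Finset N)
    (hS : a ≤ S.card) : ∃ g : Fin a ⊕ Fin b ≃ N, ∀ i, g (Sum.inl i) ∈ S := by
  obtain ⟨S', hS', hc⟩ := Finset.exists_subset_card_eq hS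
  let e1 : Fin a ≃ {x // x ∈ S'} := (S'.equivFinOfCardEq hc).symm
  have h1 : Fintype.card {x // ¬ x ∈ S'} = b := by
    rw [Fintype.card_subtype_compl, Fintype.card_coe, hN, hc]
    omega
  let e2 : Fin b ≃ {x // ¬ x ∈ S'} := Fintype.equivOfCardEq (by rw [h1, Fintype.card_fin])
  exact ⟨(Equiv.sumCongr e1 e2).trans (Equiv.sumCompl (· ∈ S')), fun i => hS' (e1 i).2⟩

/-- the chosen functions, `s + n` of them different from the `ζ(p_i)` -/
theorem exists_names {X : Type} [Fintype X] {q s n : ℕ} {U : Set (X → ℂ)} {Ω : Fin q → PeriodPair} {ty : Fin n → Fin q}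
    {t : Fin s → (X → ℂ) → ℂ} {p : Fin n → (X → ℂ) → ℂ} (h : Family U Ω ty t p) :
    ∃ e : Fin (s + n) ⊕ Fin n → Name s n, Function.Injective e ∧ (∀ k i, e (Sum.inl k) ≠ Name.zeta i) ∧
      N207.AX.Ind U (fun k z => value Ω ty t p z (e k)) ∧
      ∀ k, AnalyticOnNhd ℂ (fun z : X → ℂ => value Ω ty t p z (e k)) U := by
  classical
  obtain ⟨e, he, hI⟩ := N945.AX.ell (N301.AX.ind N878.AX.line) X q n s U Ω ty p t h.isOpen h.isPreconnected h.nonempty
    h.noHom h.analytic_p h.notMem h.independent_p h.analytic_t h.independent_t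
  let f : Y776.Cv.Nf n s → Name s n := Sum.elim Name.t (Sum.elim Name.expt (Sum.elim Name.p
    (Sum.elim Name.zeta Name.wp)))
  have hf : Function.Injective f := by
    rintro (a | a | a | a | a) (b | b | b | b | b) hab
    all_goals first
      | (simp only [f, Sum.elim_inl, Sum.elim_inr, Name.t.injEq, Name.expt.injEq, Name.p.injEq, Name.wp.injEq,
          Name.zeta.injEq] at hab
         rw [hab])
      | (simp [f] at hab)
  have hv : ∀ a, (fun z : X → ℂ => value Ω ty t p z (f a)) = N207.AX.ye Ω ty p t a := by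
    rintro (a | a | a | a | a) <;> rfl
  have hz : ∀ a i, f a = Name.zeta i → a = Sum.inr (Sum.inr (Sum.inr (Sum.inl i))) := fun a i ha => hf ha
  -- at most `n` of the functions are `ζ(p_i)`
  let Z : Finset (Fin (s + 2 * n)) := Finset.univ.filter fun k => ∃ i, f (e k) = Name.zeta i
  have hZ : Z.card ≤ n := by
    choose m hm using fun k : {k // ∃ i, f (e k) = Name.zeta i} => k.2
    have h2 : Function.Injective m := by
      intro a b hab
      have h3 := hm a
      have h4 := hm b
      rw [← hab] at h4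
      exact Subtype.ext (he (hf (h3.trans h4.symm)))
    have h5 := Fintype.card_le_of_injective m h2
    rwa [Fintype.card_subtype, Fintype.card_fin] at h5
  have hS : s + n ≤ Zᶜ.card := by
    rw [Finset.card_compl, Fintype.card_fin]
    omega
  obtain ⟨g, hg⟩ := exists_split (a := s + n) (b := n) (by rw [Fintype.card_fin]; omega) Zᶜ hS
  refine ⟨fun k => f (e (g k)), fun a b hab => g.injective (he (hf hab)), ?_, ?_, ?_⟩
  · intro k i hki
    have h1 := Finset.mem_compl.1 (hg k)
    exact h1 (Finset.mem_filter.2 ⟨Finset.mem_univ _, i, hki⟩)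
  · have h2 : (fun (k : Fin (s + n) ⊕ Fin n) (z : X → ℂ) => value Ω ty t p z (f (e (g k)))) =
        fun k => N207.AX.ye Ω ty p t (e (g k)) := by
      funext k
      exact hv (e (g k))
    rw [h2]
    exact hI.comp g.injective
  · intro k
    rw [hv]
    exact N207.AX.ye_an h.analytic_p h.notMem h.analytic_t (e (g k))

/-- **The conjecture for almost all points of a family.** Let `t, p` be a family as above.

One can choose `s + n` different functions `e_k` among the `2 s + 2 n` functions `t_l`, `exp(t_l)`, `p_i`, `℘(p_i)`, and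
`n` others among these and the `ζ(p_i)`, such that there is `ω → ∞` with the following property: for all large `T`, all
number fields `K` of degree at most `ω T`, all embeddings and all complex numbers `ξ i`, `i < ω T`, the points of `K ^ X`
which are exceptional for the `s + 2 n` numbers lie on at most `T ^ (1 / ω T)` hypersurfaces of degree at most
`T ^ (1 / ω T)`, and there are at most `T ^ (1 / ω T) * N ^ (|X| - 1)` of them, `N` being the number of elements of `K` of
height at most `T`. -/
theorem result (X : Type) [Fintype X] [DecidableEq X] [Nonempty X] (q s n : ℕ) (U : Set (X → ℂ))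
    (Ω : Fin q → PeriodPair) (ty : Fin n → Fin q) (t : Fin s → (X → ℂ) → ℂ) (p : Fin n → (X → ℂ) → ℂ)
    (h : Family U Ω ty t p) :
    ∃ e : Fin (s + n) ⊕ Fin n → Name s n, Function.Injective e ∧ (∀ k i, e (Sum.inl k) ≠ Name.zeta i) ∧
      ∃ (ω : ℝ → ℕ) (T₀ : ℝ), Tendsto ω atTop atTop ∧ Monotone ω ∧ ∀ T, T₀ ≤ T → 0 < ω T ∧
        ∀ (K : Type) [Field K] [NumberField K], Module.finrank ℚ K ≤ ω T → ∀ (io : K →+* ℂ) (ξ : Fin (ω T) → ℂ),
          Covered ⌊T ^ ((ω T : ℝ)⁻¹)⌋₊ ⌊T ^ ((ω T : ℝ)⁻¹)⌋₊
            ((fun (s : X → K) i => io (s i)) '' Exceptional U (fun z k => value Ω ty t p z (e k)) K io (ω T) ξ T) ∧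
          (Exceptional U (fun z k => value Ω ty t p z (e k)) K io (ω T) ξ T).Finite ∧
          ((Exceptional U (fun z k => value Ω ty t p z (e k)) K io (ω T) ξ T).ncard : ℝ) ≤
            T ^ ((ω T : ℝ)⁻¹) * ({x : K | Height K T x}.ncard : ℝ) ^ (Fintype.card X - 1) := by
  classical
  obtain ⟨e, he, hz, hI, han⟩ := exists_names h
  refine ⟨e, he, hz, ?_⟩
  refine (N207.AX.few_ind h.isPreconnected h.isOpen h.nonempty han hI).mono fun K _ _ io k ξ T => ?_
  rintro s ⟨h1, h2, R, h3, h4, h5, h6⟩
  exact ⟨h1, h2, R, h3, h4, h5, h6⟩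

end Pool.Agent.Results.MP_4aec10_nt.SplitFamilies
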